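import Pool.Agent.Helper78.JT.Goals
import Pool.Agent.Helper79.DT.TOA

/-!
# Packet JT-TOJ (MP_34c247_lc): the generator for a given partition
-/

namespace Pool.Agent.Helper65.JT

open Pool.Agent.Helper78.DT Pool.Agent.Helper78.JT
open scoped Classical

theorem erj_nonneg {P r t s e : ℕ} {η κ δ : ℝ} (hδ : 0 ≤ δ) (hη : 0 < η) (hκ : 0 < κ) :
    0 ≤ erj P r t s e η κ δ := by
  unfold erj
  have h1 : 0 ≤ ((r * (t * s) : ℕ) : ℝ) ^ 2 * e / P := by positivity
  have h2 : 0 ≤ (r : ℝ) * (((s : ℝ) + 1) * (κ ^ (1 - η) * (2 / η) ^ t)) := by positivity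
  linarith

theorem Zl_pos {R d : ℕ → ℕ} : ∀ l : ℕ, (∀ j < l, 0 < R j) → 0 < Zl R d l
  | 0, _ => Nat.one_pos
  | l + 1, h => Nat.mul_pos (Zl_pos l fun j hj => h j (by omega)) (Nat.pow_pos (h l (by omega)))

/-- the error for one good family of strings -/
theorem good_errj (hFoj : FojStmt) (hHyj : HyjStmt) (n K t e P q r s : ℕ) (η κ δ : ℝ)
    (H : (Fin r → Bool) → Bool)
    (hP : P.Prime) (hq : 0 < q) (hn : n ≤ 2 ^ e) (hδ : 0 ≤ δ) (hη : 0 < η) (hη1 : η ≤ 1)
    (hκ : 0 < κ) (hs : (2 / η) ^ t ≤ s * (κ / 2 ^ t) ^ η) (h : ℕ → ℕ) (hh : ∀ v, h v < K)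
    (f : Fin r → DL (Fin n))
    (hf : ∀ i, ∀ g ∈ f i, ∀ j < K, (g.1.filter fun p => h p.1 = j).card ≤ t)
    (z : ℕ → ℕ → Bool) (hg : GoodJ P q r t s κ δ H z) :
    |pr (fun y : Fin K → Fin (q * P) =>
        H (fun i => ev (f i) (fun v => z (ext y (h v) / P)
          (Pool.Agent.Helper78.DT.hs P e (ext y (h v) % P) v))) = true) -
      pr (fun x => H (fun i => ev (f i) x) = true)| ≤ K * erj P r t s e η κ δ := by
  have : Nonempty (Fin q × Fin P) := ⟨(⟨0, hq⟩, ⟨0, hP.pos⟩)⟩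
  have h1 := hHyj n K t r (Fin q × Fin P)
    (fun p v => z p.1 (Pool.Agent.Helper78.DT.hs P e p.2 v)) (erj P r t s e η κ δ) H
    (erj_nonneg hδ hη hκ)
    (fun g hw => hFoj P q r t s e n η κ δ H z hP hq hη hη1 hκ hs hn hδ hg g hw)
    (fun v => ⟨h v, hh v⟩) f (by
      intro i g hgf j
      refine le_trans (Finset.card_le_card ?_) (hf i g hgf j j.2)
      intro p hp
      rw [Finset.mem_filter] at hp ⊢
      exact ⟨hp.1, by
        have := congrArg Fin.val hp.2
        exact this⟩)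
  have h2 := pr_equiv (Equiv.piCongrRight fun _ : Fin K => (finProdFinEquiv (m := q) (n := P)).symm)
    (fun y : Fin K → Fin q × Fin P => H (fun i => ev (f i) (fun v =>
      z (y ⟨h v, hh v⟩).1 (Pool.Agent.Helper78.DT.hs P e (y ⟨h v, hh v⟩).2 v))) = true)
  rw [← h2] at h1
  convert h1 using 3
  refine pr_congr fun y => ?_
  have h3 : (fun v : Fin n => z (ext y (h v) / P)
      (Pool.Agent.Helper78.DT.hs P e (ext y (h v) % P) v)) = fun v : Fin n =>
      z (((Equiv.piCongrRight fun _ : Fin K =>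
        (finProdFinEquiv (m := q) (n := P)).symm) y) ⟨h v, hh v⟩).1
        (Pool.Agent.Helper78.DT.hs P e (((Equiv.piCongrRight fun _ : Fin K =>
        (finProdFinEquiv (m := q) (n := P)).symm) y) ⟨h v, hh v⟩).2 v) := by
    funext v
    have h4 : ext y (h v) = (y ⟨h v, hh v⟩ : ℕ) := by
      unfold ext
      rw [dif_pos (hh v)]
    rw [h4]
    rfl
  rw [h3]

/-- **TOJ.** -/
theorem toj (hGtj : GtjStmt) (hFoj : FojStmt) (hHyj : HyjStmt) : TojStmt := by
  intro n K t e P q r s D l R d k M η κ δ ε H hP hK hq hn hδ hε hD hM0 hM hj hη hη1 hκ hs h hh f hf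
  have hG := hGtj P q r t s D l R d k M κ δ ε H hP hq hδ hε hD hM0 hM hj
  have hR : ∀ j < l + 1, 0 < R j := fun j hl => (hj j (by omega)).1.pos
  have hZ : 0 < Zl R d (l + 1) := Zl_pos (l + 1) hR
  have : Nonempty (Fin (Zl R d (l + 1))) := ⟨⟨0, hZ⟩⟩
  set δ' : ℝ := (l + 1) * δ + ((P : ℝ) ^ D / R l + D / P) with hδ'
  have hδ0 : 0 ≤ δ' := by positivity
  set c : ℝ := pr (fun x : Fin n → Bool => H (fun i => ev (f i) x) = true) with hc
  set F : Fin (Zl R d (l + 1)) → ℝ := fun θ => pr (fun z : Fin K → Fin (q * P) =>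
    H (fun i => ev (f i) (fun v => sb P D (ch R d θ (ext z (h v) / P) (l + 1))
      (Pool.Agent.Helper78.DT.hs P e (ext z (h v) % P) v))) = true) with hF
  have h1 : pr (fun z : Fin (Zl R d (l + 1)) × (Fin K → Fin (q * P)) =>
      H (fun i => ev (f i) (fun v => sb P D (ch R d z.1 (ext z.2 (h v) / P) (l + 1))
        (Pool.Agent.Helper78.DT.hs P e (ext z.2 (h v) % P) v))) = true) = av F := by
    unfold pr
    rw [av_prod]
    rfl
  rw [h1]
  have h2 : av F - c = av fun θ => F θ - c := by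
    rw [av_sub, av_const]
  rw [h2]
  have her := erj_nonneg (P := P) (r := r) (t := t) (s := s) (e := e) hδ0 hη hκ
  have hKer : 0 ≤ (K : ℝ) * erj P r t s e η κ δ' := mul_nonneg (Nat.cast_nonneg _) her
  calc |av fun θ => F θ - c| ≤ av fun θ => |F θ - c| := abs_av_le _
    _ ≤ av fun θ : Fin (Zl R d (l + 1)) => (if ¬ GoodJ P q r t s κ δ' H
          (fun a u => sb P D (ch R d θ a (l + 1)) u) then (1 : ℝ) else 0)
        + K * erj P r t s e η κ δ' := by
      refine av_mono fun θ => ?_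
      by_cases hg : GoodJ P q r t s κ δ' H (fun a u => sb P D (ch R d θ a (l + 1)) u)
      · rw [if_neg (not_not.mpr hg), zero_add]
        exact good_errj hFoj hHyj n K t e P q r s η κ δ' H hP hq hn hδ0 hη hη1 hκ hs h hh f hf
          (fun a u => sb P D (ch R d θ a (l + 1)) u) hg
      · rw [if_pos hg]
        have := Pool.Agent.Helper79.DT.abs_pr_sub_le (fun z : Fin K → Fin (q * P) =>
          H (fun i => ev (f i) (fun v => sb P D (ch R d θ (ext z (h v) / P) (l + 1))
            (Pool.Agent.Helper78.DT.hs P e (ext z (h v) % P) v))) = true)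
          (fun x : Fin n → Bool => H (fun i => ev (f i) x) = true)
        have h3 : |F θ - c| ≤ 1 := this
        linarith
    _ = pr (fun θ : Fin (Zl R d (l + 1)) => ¬ GoodJ P q r t s κ δ' H
          (fun a u => sb P D (ch R d θ a (l + 1)) u))
        + K * erj P r t s e η κ δ' := by
      rw [av_add, av_const]
      congr 1
      unfold pr
      refine av_congr fun θ => ?_
      congr
    _ ≤ _ := by
      have := hG
      linarith

end Pool.Agent.Helper65.JT
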